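import Pool.Agent.Lib.helper28.WmpA

set_option autoImplicit false

namespace Pool.Agent.Results.MP_479f73_an.Yes

open Filter Topology Set Metric BoundedContinuousFunction Pool.Agent.H28Wmp

/-- the weak maximizing property of the pair `(E, F)` -/
def WMP (𝕜 E F : Type) [RCLike 𝕜] [NormedAddCommGroup E] [NormedSpace 𝕜 E]
    [NormedAddCommGroup F] [NormedSpace 𝕜 F] : Prop :=
  ∀ T : E →L[𝕜] F, (∃ x : ℕ → E, (∀ n, ‖x n‖ = 1) ∧ Tendsto (fun n => ‖T (x n)‖) atTop (𝓝 ‖T‖) ∧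
    ¬ ∀ f : E →L[𝕜] 𝕜, Tendsto (fun n => f (x n)) atTop (𝓝 0)) → ∃ x, ‖x‖ = 1 ∧ ‖T x‖ = ‖T‖

variable {𝕜 E : Type} [RCLike 𝕜] [NormedAddCommGroup E] [NormedSpace 𝕜 E]

lemma W (h : WMP 𝕜 E (ℕ →ᵇ 𝕜)) {f : ℕ → StrongDual 𝕜 E} (hf : ∀ n, ‖f n‖ ≤ 1) {x : ℕ → E}
    (hx : ∀ n, ‖x n‖ = 1) (h1 : Tendsto (fun n => ‖f n (x n)‖) atTop (𝓝 1))
    (h2 : ∀ z, ‖z‖ = 1 → ∃ θ < (1 : ℝ), ∀ᶠ n in atTop, ‖f n z‖ ≤ θ) (k : StrongDual 𝕜 E) :
    Tendsto (fun n => k (x n)) atTop (𝓝 0) := by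
  revert k
  by_contra a
  let c : ℕ → ℝ := fun n => n / (n + 1)
  have c0 : ∀ n, 0 ≤ c n := fun n => by positivity
  have c1 : ∀ n, c n < 1 := fun n => (div_lt_one (by positivity)).2 (lt_add_one _)
  have b : ∀ z n, ‖(c n : 𝕜) * f n z‖ = c n * ‖f n z‖ := fun z n => by
    rw [norm_mul, RCLike.norm_ofReal, abs_of_nonneg (c0 n)]
  have b1 : ∀ z n, ‖f n z‖ ≤ ‖z‖ := fun z n =>
    ((f n).le_opNorm z).trans (mul_le_of_le_one_left (norm_nonneg _) (hf n))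
  have b2 : ∀ z n, ‖(c n : 𝕜) * f n z‖ ≤ ‖z‖ := fun z n => by
    rw [b]; exact (mul_le_of_le_one_left (norm_nonneg _) (c1 n).le).trans (b1 z n)
  let L : E →ₗ[𝕜] ℕ →ᵇ 𝕜 :=
    { toFun := fun z => ofNormedAddCommGroupDiscrete (fun n => (c n : 𝕜) * f n z) ‖z‖ (b2 z)
      map_add' := fun y z => by ext n; simp [mul_add]
      map_smul' := fun t z => by ext n; simp [mul_left_comm] }
  have l1 : ∀ z, ‖L z‖ ≤ 1 * ‖z‖ := fun z => (BoundedContinuousFunction.norm_le (by positivity)).2 fun n => by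
    rw [one_mul]; exact b2 z n
  let T := L.mkContinuous 1 l1
  have t1 : ‖T‖ ≤ 1 := L.mkContinuous_norm_le zero_le_one l1
  have t2 : Tendsto (fun n => ‖T (x n)‖) atTop (𝓝 1) :=
    tendsto_of_tendsto_of_tendsto_of_le_of_le (g := fun n => c n * ‖f n (x n)‖)
      (by simpa using (tendsto_natCast_div_add_atTop (1 : ℝ)).mul h1) tendsto_const_nhds
      (fun n => (b _ n).symm.trans_le ((T (x n)).norm_coe_le_norm n))
      fun n => (l1 _).trans (by simp [hx])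
  have t3 : ‖T‖ = 1 := t1.antisymm (le_of_tendsto' t2 fun n => T.unit_le_opNorm _ (hx n).le)
  obtain ⟨z, z1, z2⟩ := h T ⟨x, hx, t3 ▸ t2, a⟩
  obtain ⟨θ, q1, q2⟩ := h2 z z1
  obtain ⟨N, hN⟩ := eventually_atTop.1 q2
  refine (z2.trans t3).not_lt (lt_of_le_of_lt ((BoundedContinuousFunction.norm_le (C := max θ (c N))
    (le_max_of_le_right (c0 N))).2 fun n => (b z n).trans_le ?_) (max_lt q1 (c1 N)))
  rcases le_total N n with hn | hn
  · exact le_max_of_le_left ((mul_le_of_le_one_left (norm_nonneg _) (c1 n).le).trans (hN n hn))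
  · refine le_max_of_le_right ((mul_le_of_le_one_right (c0 n) ((b1 z n).trans z1.le)).trans ?_)
    have : (n : ℝ) ≤ N := by exact_mod_cast hn
    rw [div_le_div_iff₀ (by positivity) (by positivity)]
    linarith

lemma att (h : WMP 𝕜 E (ℕ →ᵇ 𝕜)) {f : StrongDual 𝕜 E} (hf : ‖f‖ = 1) : ∃ x, ‖x‖ = 1 ∧ f x = 1 := by
  by_contra! a
  have h1 : ∀ n : ℕ, ∃ x, ‖x‖ = 1 ∧ (n : ℝ) / (n + 1) ≤ ‖f x‖ := fun n => by
    by_contra! b
    exact (f.opNorm_le_of_unit_norm (C := n / (n + 1)) (by positivity) fun x hx => (b x hx).le).not_gt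
      (by rw [hf]; exact (div_lt_one (by positivity)).2 (lt_add_one _))
  choose x x1 x2 using h1
  have h2 : Tendsto (fun n => ‖f (x n)‖) atTop (𝓝 1) :=
    tendsto_of_tendsto_of_tendsto_of_le_of_le (tendsto_natCast_div_add_atTop (1 : ℝ))
      tendsto_const_nhds x2 fun n => (f.unit_le_opNorm _ (x1 n).le).trans hf.le
  have := W h (f := fun _ => f) (fun _ => hf.le) x1 h2 (fun z hz => ⟨‖f z‖, by
    obtain ⟨y, y1, y2⟩ := rot f z
    exact ((f.unit_le_opNorm _ hz.le).trans hf.le).lt_of_ne fun e => a y (y1.trans hz) (by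
      simp [y2, e]), .of_forall fun _ => le_rfl⟩) f
  simpa using tendsto_nhds_unique this.norm h2

lemma nrm {f : StrongDual 𝕜 E} (hf : f ≠ 0) : ‖((‖f‖⁻¹ : ℝ) : 𝕜) • f‖ = 1 := by
  rw [norm_smul, RCLike.norm_ofReal, abs_inv, abs_norm, inv_mul_cancel₀ (norm_ne_zero_iff.2 hf)]

lemma upper (h : WMP 𝕜 E (ℕ →ᵇ 𝕜)) {g : ℕ → StrongDual 𝕜 E} (g1 : ∀ n, ‖g n‖ = 1)
    (g0 : ∀ x, Tendsto (fun n => g n x) atTop (𝓝 0)) {f : StrongDual 𝕜 E} (hf : ‖f‖ < 2) :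
    ∀ᶠ n in atTop, ‖f + g n‖ < 2 := by
  by_contra a
  obtain ⟨φ, h1, h2⟩ := extraction_of_frequently_atTop (not_eventually.1 a)
  simp only [not_lt] at h2
  have p : ∀ n, 0 < ‖f + g (φ n)‖ := fun n => two_pos.trans_le (h2 n)
  choose x x1 x2 using fun n => att h (nrm (norm_pos_iff.1 (p n)))
  have e : ∀ n z, ‖(((‖f + g (φ n)‖⁻¹ : ℝ) : 𝕜) • (f + g (φ n))) z‖
      = ‖f z + g (φ n) z‖ / ‖f + g (φ n)‖ := fun n z => by
    simp [div_eq_inv_mul, ← mul_add]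
  have h3 := W h (fun n => (nrm (norm_pos_iff.1 (p n))).le) x1 (by simp only [x2]; simp)
    (fun z hz => ⟨(‖f‖ + 2) / 4, by linarith, by
      have := ((g0 z).comp h1.tendsto_atTop).norm
      filter_upwards [this.eventually (gt_mem_nhds (show ‖(0 : 𝕜)‖ < (2 - ‖f‖) / 2 by
        rw [norm_zero]; linarith))] with n hn
      rw [e, div_le_iff₀ (p n)]
      nlinarith [norm_add_le (f z) (g (φ n) z), f.unit_le_opNorm z hz.le, h2 n, norm_nonneg f,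
        show ‖g (φ n) z‖ < _ from hn]⟩) f
  obtain ⟨n, hn⟩ := (h3.norm.eventually (gt_mem_nhds (show ‖(0 : 𝕜)‖ < 1 by simp))).exists
  have := e n (x n)
  rw [x2, norm_one, eq_comm, div_eq_one_iff_eq (p n).ne'] at this
  linarith [norm_add_le (f (x n)) (g (φ n) (x n)), (g (φ n)).unit_le_opNorm _ (x1 n).le, g1 (φ n),
    h2 n]

lemma main (h : WMP 𝕜 E (ℕ →ᵇ 𝕜)) : FiniteDimensional 𝕜 E := by
  by_contra hE
  obtain ⟨R, u, R1, u1, u2⟩ := exists_seq_norm_le_one_le_norm_sub (𝕜 := 𝕜) (E := StrongDual 𝕜 E)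
    fun _ => hE (.of_injective (NormedSpace.inclusionInDoubleDualLi 𝕜 (E := E)).toLinearMap
      (NormedSpace.inclusionInDoubleDualLi 𝕜 (E := E)).injective)
  obtain ⟨φ, w, h1, h2⟩ := subseq (fun f => by
    rcases eq_or_ne f 0 with rfl | f0
    · exact ⟨0, by simp, by simp [ρ]⟩
    obtain ⟨x, x1, x2⟩ := att h (nrm f0)
    have : (‖f‖ : 𝕜) ≠ 0 := by simpa using f0
    refine ⟨x, x1.le, ?_⟩
    rw [ρ, show f x = ‖f‖ by simpa [inv_mul_eq_one₀ this, eq_comm] using x2, RCLike.ofReal_re])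
    (one_pos.trans R1) u1
  have d1 : ∀ n, 1 ≤ ‖u (φ (n + 1)) - u (φ n)‖ := fun n => u2 (h1 n.lt_succ_self).ne'
  set g : ℕ → StrongDual 𝕜 E := fun n =>
    ((‖u (φ (n + 1)) - u (φ n)‖⁻¹ : ℝ) : 𝕜) • (u (φ (n + 1)) - u (φ n))
  have g1 : ∀ n, ‖g n‖ = 1 := fun n => nrm (norm_pos_iff.1 (one_pos.trans_le (d1 n)))
  have g0 : ∀ x, Tendsto (fun n => g n x) atTop (𝓝 0) := fun x => by
    have := (((h2 x).comp (tendsto_add_atTop_nat 1)).sub (h2 x)).norm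
    rw [sub_self, norm_zero] at this
    refine squeeze_zero_norm (fun n => ?_) this
    simpa [g] using mul_le_of_le_one_left (norm_nonneg _) (inv_le_one_of_one_le₀ (d1 n))
  clear_value g
  choose y y1 y2 using fun n => att h (g1 n)
  have y0 := W h (fun n => (g1 n).le) y1 (by simp [y2]) fun z _ => ⟨1 / 2, by norm_num,
    ((g0 z).norm.eventually (gt_mem_nhds (show ‖(0 : 𝕜)‖ < 1 / 2 by simp))).mono fun _ => le_of_lt⟩
  have r0 : ∀ {a : ℕ → 𝕜}, Tendsto a atTop (𝓝 0) → ∀ t < 0, ∀ᶠ n in atTop, t < RCLike.re (a n) :=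
    fun ha t ht => ((RCLike.continuous_re.tendsto _).comp ha).eventually (lt_mem_nhds (by simpa))
  have step : ∀ (k : ℕ) (s : StrongDual 𝕜 E × Finset ℕ), (‖s.1‖ < 2 ∧ ∀ j ∈ s.2, 1 / 2 < ρ s.1 (y j))
      → ∃ s' : StrongDual 𝕜 E × Finset ℕ, (‖s'.1‖ < 2 ∧ ∀ j ∈ s'.2, 1 / 2 < ρ s'.1 (y j)) ∧
        s.2 ⊆ s'.2 ∧ ∃ n ≥ k, n ∈ s'.2 := fun k s hs => by
    obtain ⟨n, n1, n2, n3, n4⟩ := ((upper h g1 g0 hs.1).and (((eventually_all_finset s.2).2
      fun j hj => r0 (g0 (y j)) _ (sub_neg.2 (hs.2 j hj))).and ((r0 (y0 s.1) (-(1 / 2))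
        (by norm_num)).and (eventually_ge_atTop k)))).exists
    refine ⟨(s.1 + g n, insert n s.2), ⟨n1, fun j hj => ?_⟩, Finset.subset_insert _ _, n, n4,
      Finset.mem_insert_self _ _⟩
    rw [ρ_add]
    rcases Finset.mem_insert.1 hj with rfl | hj
    · simp only [ρ, y2, RCLike.one_re]; linarith
    · linarith [show _ < ρ (g n) (y j) from n2 j hj]
  choose! F hF using step
  let s : ℕ → StrongDual 𝕜 E × Finset ℕ := fun n => Nat.rec (0, ∅) F n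
  have inv : ∀ k, ‖(s k).1‖ < 2 ∧ ∀ j ∈ (s k).2, 1 / 2 < ρ (s k).1 (y j) := fun k => by
    induction k with
    | zero => simp [s]
    | succ k ih => exact (hF k _ ih).1
  have mo : Monotone fun k => (s k).2 := monotone_nat_of_le_succ fun k => (hF k _ (inv k)).2.1
  obtain ⟨G, -, hG⟩ := ex_Cl fun k => (inv k).1.le
  obtain ⟨k, hk⟩ := eventually_atTop.1 (r0 (a := fun n => -G (y n)) (by simpa using (y0 G).neg)
    (-(1 / 2)) (by norm_num))
  obtain ⟨n, n1, n2⟩ := (hF k _ (inv k)).2.2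
  have := hG (y n) (1 / 2) ((eventually_ge_atTop (k + 1)).mono fun m hm =>
    ((inv m).2 n (mo hm n2)).le)
  have h3 := hk n n1
  rw [map_neg] at h3
  linarith [show 1 / 2 ≤ RCLike.re (G (y n)) from this]

/-- If `(E, ℓ∞)` has the weak maximizing property then `E` is finite dimensional; in particular
this holds if `(E, F)` has it for every Banach space `F`. -/
theorem result (𝕜 E : Type) [RCLike 𝕜] [NormedAddCommGroup E] [NormedSpace 𝕜 E] [CompleteSpace E] :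
    (WMP 𝕜 E (ℕ →ᵇ 𝕜) → FiniteDimensional 𝕜 E) ∧
      ((∀ (F : Type) [NormedAddCommGroup F] [NormedSpace 𝕜 F] [CompleteSpace F], WMP 𝕜 E F) →
        FiniteDimensional 𝕜 E) :=
  ⟨main, fun h => main (h _)⟩

end Pool.Agent.Results.MP_479f73_an.Yes
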